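import Pool.Agent.H64.AK.Defs

set_option autoImplicit false

open Topology Cardinal Pool.Agent.H64.AK Pool.Agent.H20.SL

namespace Pool.Agent.H12.AK

theorem mvpoly_countable : Countable (MvPolynomial ℕ ℚ) := by
  have h : Function.Injective fun (p : MvPolynomial ℕ ℚ) => fun m : ℕ →₀ ℕ => p.coeff m := by
    intro p q h
    ext m
    exact congrFun h m
  have h2 : Function.Injective fun (p : MvPolynomial ℕ ℚ) =>
      (Finsupp.onFinset p.support (fun m => p.coeff m) (fun m hm => by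
        rwa [MvPolynomial.mem_support_iff]) : (ℕ →₀ ℕ) →₀ ℚ) := by
    intro p q hpq
    ext m
    have := DFunLike.congr_fun hpq m
    simpa using this
  exact h2.countable

theorem stp_step {X : Type} (E : Set (X → ℝ)) (hE : CoConv E) (I : Type)
    (e : I → ℕ → ℕ → X → ℝ) (p : I → ℕ → MvPolynomial ℕ ℚ) (he : ∀ i n j, e i n j ∈ E)
    (m : ℕ) (G : Set I) (hG : ¬ G.Countable) :
    ∃ (G' : Set I) (q : MvPolynomial ℕ ℚ) (c : X → ℝ), G' ⊆ G ∧ ¬ G'.Countable ∧ c ∈ E ∧
      (∀ i ∈ G', p i m.unpair.1 = q) ∧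
      ∀ x, {i | i ∈ G' ∧ e i m.unpair.1 m.unpair.2 x ≠ c x}.Countable := by
  have := mvpoly_countable
  obtain ⟨q, hq⟩ := Pool.Agent.H60.CP.pig hG fun i => p i m.unpair.1
  set G1 : Set I := {i | i ∈ G ∧ p i m.unpair.1 = q} with hG1
  obtain ⟨J, c, hc, hJ, hJc⟩ := hE G1 (fun i => e i.1 m.unpair.1 m.unpair.2)
    (fun i => he _ _ _) (by rwa [Set.countable_coe_iff])
  refine ⟨Subtype.val '' J, q, c, ?_, ?_, hc, ?_, ?_⟩
  · rintro _ ⟨i, -, rfl⟩
    exact i.2.1
  · intro h
    exact hJ (Set.countable_of_injective_of_countable_image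
      (Subtype.val_injective.injOn) h)
  · rintro _ ⟨i, -, rfl⟩
    exact i.2.2
  · intro x
    refine ((hJc x).image Subtype.val).mono ?_
    rintro _ ⟨⟨i, hi, rfl⟩, h⟩
    exact ⟨i, ⟨hi, h⟩, rfl⟩

theorem stp : T_STP := by
  classical
  intro X E hE I e p he hI
  choose! G' q c h1 h2 h3 h4 h5 using fun (m : ℕ) (G : Set I) (hG : ¬ G.Countable) =>
    stp_step E hE I e p he m G hG
  set J : ℕ → Set I := fun m => Nat.rec Set.univ (fun k G => G' k G) m with hJdef
  have hJ0 : J 0 = Set.univ := rfl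
  have hJs : ∀ m, J (m + 1) = G' m (J m) := fun m => rfl
  have hJu : ∀ m, ¬ (J m).Countable := by
    intro m
    induction m with
    | zero =>
      rw [hJ0, Set.countable_univ_iff]
      exact hI
    | succ m ih =>
      rw [hJs]
      exact h2 m _ ih
  have hanti : Antitone J := antitone_nat_of_succ_le fun m => by
    rw [hJs]
    exact h1 m _ (hJu m)
  refine ⟨J, fun n => q (Nat.pair n 0) (J (Nat.pair n 0)),
    fun n j => c (Nat.pair n j) (J (Nat.pair n j)), hanti, hJu, fun n j => h3 _ _ (hJu _), ?_⟩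
  intro n j m hm
  constructor
  · intro i hi
    have hle : Nat.pair n 0 ≤ Nat.pair n j := by
      rcases Nat.eq_zero_or_pos j with h | h
      · rw [h]
      · exact (Nat.pair_lt_pair_right n h).le
    have h6 : i ∈ J (Nat.pair n 0 + 1) := hanti (show Nat.pair n 0 + 1 ≤ m by omega) hi
    rw [hJs] at h6
    have h7 := h4 (Nat.pair n 0) _ (hJu (Nat.pair n 0)) i h6
    rwa [Nat.unpair_pair] at h7
  · intro x
    have h7 := h5 (Nat.pair n j) _ (hJu (Nat.pair n j)) x
    rw [Nat.unpair_pair] at h7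
    refine h7.mono ?_
    rintro i ⟨hi, hx⟩
    have h6 : i ∈ J (Nat.pair n j + 1) := hanti (show Nat.pair n j + 1 ≤ m by omega) hi
    rw [hJs] at h6
    exact ⟨h6, hx⟩

end Pool.Agent.H12.AK
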