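import Pool.Agent.H64.AK.Defs

set_option autoImplicit false

open Topology Cardinal Pool.Agent.H64.AK Pool.Agent.H20.SL

namespace Pool.Agent.H12.AK

theorem tgt_key {X : Type} [TopologicalSpace X] [CompactSpace X] (A : Set (Cp X)) (f : Cp X)
    (hf : f ∈ closure A) (m : ℕ) (ε : ℝ) (hε : 0 < ε) :
    ∃ S : Set (Cp X), S ⊆ A ∧ S.Finite ∧
      ∀ z : Fin m → X, ∃ a ∈ S, ∀ i, |a.1 (z i) - f.1 (z i)| < ε := by
  classical
  have h1 : ∀ z : Fin m → X, ∃ a ∈ A, ∀ i, |a.1 (z i) - f.1 (z i)| < ε := by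
    intro z
    have hU : IsOpen {h : Cp X | ∀ i, |h.1 (z i) - f.1 (z i)| < ε} := by
      have e : {h : Cp X | ∀ i, |h.1 (z i) - f.1 (z i)| < ε} =
          ⋂ i, {h : Cp X | |h.1 (z i) - f.1 (z i)| < ε} := by
        ext h; simp
      rw [e]
      refine isOpen_iInter_of_finite fun i => ?_
      have hc : Continuous fun h : Cp X => |h.1 (z i) - f.1 (z i)| :=
        (((continuous_apply (z i)).comp continuous_subtype_val).sub continuous_const).abs
      exact hc.isOpen_preimage _ isOpen_Iio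
    obtain ⟨a, ha, haA⟩ := mem_closure_iff.1 hf _ hU (by
      intro i
      simpa using hε)
    exact ⟨a, haA, ha⟩
  choose a ha ha2 using h1
  have hO : ∀ z : Fin m → X, IsOpen {w : Fin m → X | ∀ i, |(a z).1 (w i) - f.1 (w i)| < ε} := by
    intro z
    have e : {w : Fin m → X | ∀ i, |(a z).1 (w i) - f.1 (w i)| < ε} =
        ⋂ i, {w : Fin m → X | |(a z).1 (w i) - f.1 (w i)| < ε} := by
      ext h; simp
    rw [e]
    refine isOpen_iInter_of_finite fun i => ?_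
    have hc : Continuous fun w : Fin m → X => |(a z).1 (w i) - f.1 (w i)| :=
      (((a z).2.comp (continuous_apply i)).sub (f.2.comp (continuous_apply i))).abs
    exact hc.isOpen_preimage _ isOpen_Iio
  obtain ⟨t, ht⟩ := (isCompact_univ (X := Fin m → X)).elim_finite_subcover
    (fun z => {w : Fin m → X | ∀ i, |(a z).1 (w i) - f.1 (w i)| < ε}) hO
    (fun w _ => Set.mem_iUnion.2 ⟨w, ha2 w⟩)
  refine ⟨(a '' (t : Set (Fin m → X))), ?_, t.finite_toSet.image a, ?_⟩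
  · rintro _ ⟨z, -, rfl⟩
    exact ha z
  · intro w
    obtain ⟨z, hz, hw⟩ := Set.mem_iUnion₂.1 (ht (Set.mem_univ w))
    exact ⟨a z, ⟨z, hz, rfl⟩, hw⟩

theorem tgt : T_TGT := by
  classical
  intro X _ _ A f hf
  have h1 : ∀ m n : ℕ, ∃ S : Set (Cp X), S ⊆ A ∧ S.Finite ∧
      ∀ z : Fin m → X, ∃ a ∈ S, ∀ i, |a.1 (z i) - f.1 (z i)| < 1 / ((n : ℝ) + 1) := fun m n =>
    tgt_key A f hf m _ (by positivity)
  choose S hSA hSf hS using h1
  refine ⟨⋃ m, ⋃ n, S m n, ?_, ?_, ?_⟩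
  · exact Set.iUnion_subset fun m => Set.iUnion_subset fun n => hSA m n
  · exact Set.countable_iUnion fun m => Set.countable_iUnion fun n => (hSf m n).countable
  · rw [mem_closure_iff]
    intro U hU hfU
    obtain ⟨V, hV, rfl⟩ := isOpen_induced_iff.1 hU
    obtain ⟨I, u, hu, hIu⟩ := isOpen_pi_iff.1 hV f.1 hfU
    have h2 : ∀ x : X, ∃ ε : ℝ, 0 < ε ∧ (x ∈ I → Metric.ball (f.1 x) ε ⊆ u x) := by
      intro x
      by_cases hx : x ∈ I
      · obtain ⟨ε, hε, h⟩ := Metric.isOpen_iff.1 (hu x hx).1 _ (hu x hx).2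
        exact ⟨ε, hε, fun _ => h⟩
      · exact ⟨1, one_pos, fun h => absurd h hx⟩
    choose ε hε hεu using h2
    obtain ⟨δ, hδ, hδε⟩ : ∃ δ : ℝ, 0 < δ ∧ ∀ x ∈ I, δ ≤ ε x := by
      rcases I.eq_empty_or_nonempty with h | h
      · exact ⟨1, one_pos, by simp [h]⟩
      · obtain ⟨x0, hx0, hmin⟩ := I.exists_min_image ε h
        exact ⟨ε x0, hε x0, hmin⟩
    obtain ⟨n, hn⟩ := exists_nat_one_div_lt hδ
    obtain ⟨a, ha, ha2⟩ := hS I.card n fun i => (I.equivFin.symm i).1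
    refine ⟨a, ?_, Set.mem_iUnion₂.2 ⟨I.card, n, ha⟩⟩
    refine hIu fun x hx => ?_
    refine hεu x hx ?_
    have h3 := ha2 (I.equivFin ⟨x, hx⟩)
    rw [Equiv.symm_apply_apply] at h3
    rw [Metric.mem_ball, Real.dist_eq]
    exact h3.trans (hn.trans_le (hδε x hx))

end Pool.Agent.H12.AK
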